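import Pool.Agent.P8H48.FR.Stm

/-!
# Project FR, part CLO (helper44): a surjection of etale algebras splits off
-/

set_option autoImplicit false

namespace Pool.Agent.P8H44.FR

open Pool.Agent.P8H48.FR

theorem clo : S_CLO := by
  intro B R A _ _ _ _ _ _ _ _ f hf
  let i : Algebra R A := f.toRingHom.toAlgebra
  have ht : IsScalarTower B R A := IsScalarTower.of_algebraMap_eq fun x => (f.commutes x).symm
  have h1 : Algebra.FormallyEtale R A := Algebra.FormallyEtale.of_restrictScalars (R := B)
  have h2 : Algebra.FormallySmooth R A := inferInstance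
  have hs : Function.Surjective (algebraMap R A) := hf
  have h3 := (Algebra.FormallySmooth.iff_of_surjective hs).1 h2
  obtain ⟨e, he, h4⟩ := (Ideal.isIdempotentElem_iff_of_fg _
    (IsNoetherian.noetherian (RingHom.ker (algebraMap R A)))).1 h3
  exact ⟨e, he, h4⟩

end Pool.Agent.P8H44.FR
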