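import Pool.Agent.P8H48.FR.Stm

/-!
# Project FR, part ELB (helper44): transvections are words in the letters
-/

set_option autoImplicit false

open MvPolynomial

namespace Pool.Agent.P8H44.FR

open Pool.Agent.P8H48.FR

theorem comm_trans {R : Type} [CommRing R] {n : ℕ} {i l j : Fin n} (hil : i ≠ l) (hlj : l ≠ j)
    (hij : i ≠ j) (a b : R) :
    Matrix.transvection i l a * Matrix.transvection l j b * Matrix.transvection i l (-a) *
      Matrix.transvection l j (-b) = Matrix.transvection i j (a * b) := by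
  unfold Matrix.transvection
  have e1 : Matrix.single i l a * Matrix.single l j b = Matrix.single i j (a * b) := by
    rw [Matrix.single_mul_single_same]
  have e2 : Matrix.single i l a * Matrix.single i l a = 0 :=
    Matrix.single_mul_single_of_ne _ _ _ _ hil.symm _
  have e3 : Matrix.single l j b * Matrix.single l j b = 0 :=
    Matrix.single_mul_single_of_ne _ _ _ _ hlj.symm _
  have e4 : Matrix.single l j b * Matrix.single i l a = 0 :=
    Matrix.single_mul_single_of_ne _ _ _ _ hij.symm _
  have e5 : Matrix.single i l (-a) = -Matrix.single i l a := by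
    rw [← neg_one_smul R a, ← neg_one_smul R (Matrix.single i l a), Matrix.smul_single]
  have e6 : Matrix.single l j (-b) = -Matrix.single l j b := by
    rw [← neg_one_smul R b, ← neg_one_smul R (Matrix.single l j b), Matrix.smul_single]
  rw [e5, e6]
  obtain ⟨S, hS⟩ : ∃ S, S = Matrix.single i l a := ⟨_, rfl⟩
  obtain ⟨T, hT⟩ : ∃ T, T = Matrix.single l j b := ⟨_, rfl⟩
  rw [← hS] at e1 e2 e4 ⊢
  rw [← hT] at e1 e3 e4 ⊢
  rw [← e1]
  have h : (1 + S) * (1 + T) * (1 + -S) * (1 + -T) = 1 + S * T - S * S - T * S - S * T * S + T * S * T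
      + S * S * T - T * T - S * T * T + S * T * S * T := by noncomm_ring
  rw [h, e2, e3, e4, mul_assoc S T S, e4, mul_assoc S T T, e3]
  simp

/-- the set of the polynomials all of whose transvections are words -/
def Q (k : Type) [CommRing k] (n d : ℕ) (f : MvPolynomial (Fin d) k) : Prop :=
  ∀ i j : Fin n, i ≠ j → ∃ w : List (Let n d), prodW k w = Matrix.transvection i j f

section
variable {k : Type} [CommRing k] {n d : ℕ}

theorem prodW_append (w v : List (Let n d)) : prodW k (w ++ v) = prodW k w * prodW k v := by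
  unfold prodW
  rw [List.map_append, List.prod_append]

theorem Q_zero : Q k n d 0 := fun i j _ => ⟨[], by
  rw [Matrix.transvection_zero]
  rfl⟩

theorem Q_add {f g : MvPolynomial (Fin d) k} (hf : Q k n d f) (hg : Q k n d g) :
    Q k n d (f + g) := by
  intro i j hij
  obtain ⟨w, hw⟩ := hf i j hij
  obtain ⟨v, hv⟩ := hg i j hij
  refine ⟨w ++ v, ?_⟩
  rw [prodW_append, hw, hv, Matrix.transvection_mul_transvection_same _ _ hij]

theorem Q_nsmul {f : MvPolynomial (Fin d) k} (hf : Q k n d f) (m : ℕ) : Q k n d (m • f) := by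
  induction m with
  | zero => rw [zero_smul]; exact Q_zero
  | succ m ih => rw [succ_nsmul]; exact Q_add ih hf

theorem Q_letter (a : Option (Fin d)) : Q k n d (ent k a) := fun i j hij =>
  ⟨[⟨i, j, hij, a⟩], by
    unfold prodW Let.mat
    simp⟩

end

section
variable {p : ℕ} [Fact p.Prime] {n d : ℕ}

theorem Q_neg {f : MvPolynomial (Fin d) (ZMod p)} (hf : Q (ZMod p) n d f) :
    Q (ZMod p) n d (-f) := by
  have h := Q_nsmul hf (p - 1)
  have e : (p - 1) • f = -f := by
    have h1 : ((p - 1) + 1) • f = 0 := by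
      rw [Nat.sub_add_cancel (Nat.Prime.one_le Fact.out), nsmul_eq_mul]
      have : ((p : ℕ) : MvPolynomial (Fin d) (ZMod p)) = 0 := CharP.cast_eq_zero _ p
      rw [this, zero_mul]
    rw [add_smul, one_smul] at h1
    exact eq_neg_of_add_eq_zero_left h1
  rwa [e] at h

theorem Q_mul (hn : 3 ≤ n) {f g : MvPolynomial (Fin d) (ZMod p)} (hf : Q (ZMod p) n d f)
    (hg : Q (ZMod p) n d g) : Q (ZMod p) n d (f * g) := by
  intro i j hij
  obtain ⟨l, hli, hlj⟩ : ∃ l : Fin n, l ≠ i ∧ l ≠ j := by
    have h : ({i, j} : Finset (Fin n)) ≠ Finset.univ := by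
      intro h
      have h1 := congrArg Finset.card h
      rw [Finset.card_univ, Fintype.card_fin] at h1
      have h2 := Finset.card_le_two (a := i) (b := j)
      omega
    obtain ⟨l, hl⟩ : ∃ l, l ∉ ({i, j} : Finset (Fin n)) := by
      by_contra hcon
      push Not at hcon
      exact h (Finset.eq_univ_iff_forall.2 hcon)
    refine ⟨l, ?_, ?_⟩
    · rintro rfl
      simp at hl
    · rintro rfl
      simp at hl
  obtain ⟨w₁, h₁⟩ := hf i l hli.symm
  obtain ⟨w₂, h₂⟩ := hg l j hlj
  obtain ⟨w₃, h₃⟩ := Q_neg hf i l hli.symm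
  obtain ⟨w₄, h₄⟩ := Q_neg hg l j hlj
  refine ⟨w₁ ++ w₂ ++ w₃ ++ w₄, ?_⟩
  rw [prodW_append, prodW_append, prodW_append, h₁, h₂, h₃, h₄,
    comm_trans hli.symm hlj hij]

end

theorem elb : S_ELB := by
  intro p _ n d hn i j hij f
  suffices h : Q (ZMod p) n d f from h i j hij
  induction f using MvPolynomial.induction_on with
  | C a =>
    have h := Q_nsmul (Q_letter (k := ZMod p) (n := n) (d := d) none) a.val
    have e : a.val • ent (ZMod p) (none : Option (Fin d)) = C a := by
      have h1 : ent (ZMod p) (none : Option (Fin d)) = 1 := rfl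
      rw [h1, nsmul_eq_mul, mul_one]
      have h2 : ((a.val : ℕ) : ZMod p) = a := ZMod.natCast_zmod_val a
      rw [← map_natCast (C : ZMod p →+* MvPolynomial (Fin d) (ZMod p)), h2]
    rwa [e] at h
  | add f g hf hg => exact Q_add hf hg
  | mul_X f l hf => exact Q_mul hn hf (Q_letter (some l))

end Pool.Agent.P8H44.FR
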