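import Pool.Agent.P8H48.FR.Stm

/-!
# Project FR, part FROB (helper44): Frobenius systems are finite and etale
-/

set_option autoImplicit false

open MvPolynomial

namespace Pool.Agent.P8H44.FR

open Pool.Agent.P8H48.FR

section
variable {p : ℕ} {B : Type} [CommRing B] {n : ℕ} (N : Matrix (Fin n) (Fin n) B)

/-- the classes of the variables -/
noncomputable def x (p : ℕ) (N : Matrix (Fin n) (Fin n) B) (i : Fin n) : Frob p N :=
  Ideal.Quotient.mk _ (X i)

theorem x_rel (i : Fin n) : x p N i ^ p = ∑ j, N i j • x p N j := by
  have h : Ideal.Quotient.mk (Ideal.span (Set.range fun i => X i ^ p - ∑ j, C (N i j) * X j))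
      (X i ^ p - ∑ j, C (N i j) * X j) = 0 :=
    Ideal.Quotient.eq_zero_iff_mem.2 (Ideal.subset_span ⟨i, rfl⟩)
  rw [map_sub, sub_eq_zero, map_pow, map_sum] at h
  unfold x
  rw [h]
  apply Finset.sum_congr rfl
  intro j _
  rw [map_mul]
  exact (Algebra.smul_def (N i j) (x p N j)).symm

/-- the class of a monomial -/
noncomputable def mo (p : ℕ) (N : Matrix (Fin n) (Fin n) B) (s : Fin n → ℕ) : Frob p N :=
  ∏ i, x p N i ^ s i

theorem mo_mem (hp : 2 ≤ p) (m : ℕ) : ∀ s : Fin n → ℕ, ∑ i, s i = m →
    mo p N s ∈ Submodule.span B (Set.range fun t : Fin n → Fin p => mo p N fun i => (t i : ℕ)) := by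
  induction m using Nat.strong_induction_on with
  | _ m ih =>
  intro s hs
  by_cases h : ∀ i, s i < p
  · exact Submodule.subset_span ⟨fun i => ⟨s i, h i⟩, rfl⟩
  · push Not at h
    obtain ⟨i, hi⟩ := h
    have e1 : mo p N s = mo p N (Function.update s i (s i - p)) * x p N i ^ p := by
      unfold mo
      rw [← Finset.mul_prod_erase Finset.univ (fun k => x p N k ^ s k) (Finset.mem_univ i),
        ← Finset.mul_prod_erase Finset.univ
          (fun k => x p N k ^ (Function.update s i (s i - p)) k) (Finset.mem_univ i)]
      have e2 : ∏ k ∈ Finset.univ.erase i, x p N k ^ (Function.update s i (s i - p)) k =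
          ∏ k ∈ Finset.univ.erase i, x p N k ^ s k := by
        apply Finset.prod_congr rfl
        intro k hk
        rw [Function.update_of_ne (Finset.ne_of_mem_erase hk)]
      rw [e2, Function.update_self]
      have e3 : x p N i ^ s i = x p N i ^ (s i - p) * x p N i ^ p := by
        rw [← pow_add, Nat.sub_add_cancel hi]
      rw [e3]
      ring
    rw [e1, x_rel, Finset.mul_sum]
    apply Submodule.sum_mem
    intro j _
    rw [mul_smul_comm]
    apply Submodule.smul_mem
    have e4 : mo p N (Function.update s i (s i - p)) * x p N j =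
        mo p N (Function.update s i (s i - p) + Pi.single j 1) := by
      unfold mo
      have e5 : x p N j = ∏ k, x p N k ^ (Pi.single j 1 : Fin n → ℕ) k := by
        rw [Finset.prod_eq_single j]
        · rw [Pi.single_eq_same, pow_one]
        · intro k _ hk
          rw [Pi.single_eq_of_ne hk, pow_zero]
        · intro h
          exact absurd (Finset.mem_univ j) h
      conv_lhs => rw [e5]
      rw [← Finset.prod_mul_distrib]
      apply Finset.prod_congr rfl
      intro k _
      rw [Pi.add_apply, pow_add]
    rw [e4]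
    refine ih _ ?_ _ rfl
    have e6 : ∑ k, (Function.update s i (s i - p) + Pi.single j 1 : Fin n → ℕ) k =
        ∑ k, Function.update s i (s i - p) k + 1 := by
      simp only [Pi.add_apply]
      rw [Finset.sum_add_distrib]
      congr 1
      rw [Finset.sum_eq_single j]
      · rw [Pi.single_eq_same]
      · intro k _ hk
        rw [Pi.single_eq_of_ne hk]
      · intro h
        exact absurd (Finset.mem_univ j) h
    have e7 : ∑ k, Function.update s i (s i - p) k + p = ∑ k, s k := by
      rw [← Finset.add_sum_erase Finset.univ s (Finset.mem_univ i),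
        ← Finset.add_sum_erase Finset.univ (Function.update s i (s i - p)) (Finset.mem_univ i)]
      have e8 : ∑ k ∈ Finset.univ.erase i, Function.update s i (s i - p) k =
          ∑ k ∈ Finset.univ.erase i, s k := by
        apply Finset.sum_congr rfl
        intro k hk
        rw [Function.update_of_ne (Finset.ne_of_mem_erase hk)]
      rw [e8, Function.update_self]
      omega
    rw [e6]
    omega

theorem frob_finite (hp : 2 ≤ p) : Module.Finite B (Frob p N) := by
  refine ⟨⟨(Set.finite_range fun t : Fin n → Fin p => mo p N fun i => (t i : ℕ)).toFinset, ?_⟩⟩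
  rw [Set.Finite.coe_toFinset, eq_top_iff]
  rintro y -
  obtain ⟨q, rfl⟩ := Ideal.Quotient.mk_surjective y
  rw [q.as_sum, map_sum]
  apply Submodule.sum_mem
  intro s _
  have e : Ideal.Quotient.mk (Ideal.span (Set.range fun i => X i ^ p - ∑ j, C (N i j) * X j))
      (monomial s (coeff s q)) = coeff s q • mo p N (fun i => s i) := by
    rw [monomial_eq, map_mul]
    refine Eq.trans ?_ (Algebra.smul_def (coeff s q) (mo p N (fun i => s i))).symm
    congr 1
    unfold mo
    rw [Finsupp.prod_fintype _ _ (fun i => pow_zero _), map_prod]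
    rfl
  rw [e]
  exact Submodule.smul_mem _ _ (mo_mem N hp _ _ rfl)

theorem frob_etale [Fact p.Prime] [CharP B p] (hN : IsUnit N.det) :
    Algebra.FormallyEtale B (Frob p N) := by
  have hp : p.Prime := Fact.out
  rw [Algebra.FormallyEtale.iff_comp_bijective]
  intro R _ _ I hI
  have hpR : (p : R) = 0 := by
    rw [← map_natCast (algebraMap B R), CharP.cast_eq_zero, map_zero]
  have hsq : ∀ a ∈ I, ∀ b ∈ I, a * b = 0 := by
    intro a ha b hb
    have : a * b ∈ I ^ 2 := by
      rw [pow_two]
      exact Ideal.mul_mem_mul ha hb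
    rw [hI] at this
    exact this
  have hpow : ∀ a : R, ∀ b ∈ I, (a + b) ^ p = a ^ p := by
    intro a b hb
    rw [add_pow_prime_eq hp, hpR, zero_mul, zero_mul, zero_mul, add_zero]
    have : b ^ p = 0 := by
      obtain ⟨m, hm⟩ : ∃ m, p = m + 2 := ⟨p - 2, by have := hp.two_le; omega⟩
      rw [hm, pow_add, pow_two, hsq b hb b hb, mul_zero]
    rw [this, add_zero]
  have hinv := N.nonsing_inv_mul hN
  have hinv' := N.mul_nonsing_inv hN
  constructor
  · -- uniqueness
    intro f g hfg
    have h1 : ∀ y, f y - g y ∈ I := by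
      intro y
      rw [← Ideal.Quotient.eq]
      exact DFunLike.congr_fun hfg y
    have h2 : ∀ j, f (x p N j) = g (x p N j) := by
      have h3 : ∀ i, ∑ j, N i j • (f (x p N j) - g (x p N j)) = 0 := by
        intro i
        have e1 : f (x p N i) ^ p = ∑ j, N i j • f (x p N j) := by
          rw [← map_pow, x_rel, map_sum]
          exact Finset.sum_congr rfl fun j _ => map_smul _ _ _
        have e2 : g (x p N i) ^ p = ∑ j, N i j • g (x p N j) := by
          rw [← map_pow, x_rel, map_sum]
          exact Finset.sum_congr rfl fun j _ => map_smul _ _ _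
        have e3 : f (x p N i) ^ p = g (x p N i) ^ p := by
          rw [← hpow (g (x p N i)) _ (h1 (x p N i))]
          congr 1
          ring
        simp_rw [smul_sub]
        rw [Finset.sum_sub_distrib, ← e1, ← e2, e3, sub_self]
      intro j
      have h4 : ∑ i, N⁻¹ j i • ∑ k, N i k • (f (x p N k) - g (x p N k)) =
          f (x p N j) - g (x p N j) := by
        simp_rw [Finset.smul_sum, smul_smul]
        rw [Finset.sum_comm]
        simp_rw [← Finset.sum_smul]
        have h5 : ∀ k, ∑ i, N⁻¹ j i * N i k = (1 : Matrix (Fin n) (Fin n) B) j k := by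
          intro k
          rw [← hinv, Matrix.mul_apply]
        simp_rw [h5, Matrix.one_apply]
        simp
      simp_rw [h3] at h4
      simp only [smul_zero, Finset.sum_const_zero] at h4
      exact sub_eq_zero.1 h4.symm
    apply Ideal.Quotient.algHom_ext
    apply MvPolynomial.algHom_ext
    intro j
    exact h2 j
  · -- existence
    intro f
    choose c hc using fun i => Ideal.Quotient.mk_surjective (f (x p N i))
    have h1 : ∀ i, c i ^ p - ∑ j, N i j • c j ∈ I := by
      intro i
      rw [← Ideal.Quotient.eq, map_pow, hc, ← map_pow, x_rel, map_sum, map_sum]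
      apply Finset.sum_congr rfl
      intro j _
      rw [map_smul, ← hc, Algebra.smul_def, Algebra.smul_def, map_mul]
      rfl
    obtain ⟨δ, hδ⟩ : ∃ δ : Fin n → R, δ = fun j => ∑ i, N⁻¹ j i • (c i ^ p - ∑ k, N i k • c k) :=
      ⟨_, rfl⟩
    have h2 : ∀ j, δ j ∈ I := by
      intro j
      rw [hδ]
      apply Ideal.sum_mem
      intro i _
      rw [Algebra.smul_def]
      exact Ideal.mul_mem_left _ _ (h1 i)
    have h3 : ∀ i, ∑ j, N i j • δ j = c i ^ p - ∑ k, N i k • c k := by
      intro i
      rw [hδ]
      simp_rw [Finset.smul_sum, smul_smul]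
      rw [Finset.sum_comm]
      simp_rw [← Finset.sum_smul]
      have h5 : ∀ k, ∑ j, N i j * N⁻¹ j k = (1 : Matrix (Fin n) (Fin n) B) i k := by
        intro k
        rw [← hinv', Matrix.mul_apply]
      simp_rw [h5, Matrix.one_apply]
      simp
    have h4 : ∀ i, (c i + δ i) ^ p = ∑ j, N i j • (c j + δ j) := by
      intro i
      rw [hpow _ _ (h2 i)]
      simp_rw [smul_add]
      rw [Finset.sum_add_distrib, h3]
      ring
    have h5 : ∀ a ∈ Ideal.span (Set.range fun i => X i ^ p - ∑ j, C (N i j) * X j),
        aeval (R := B) (fun i => c i + δ i) a = 0 := by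
      intro a ha
      have h6 : Ideal.span (Set.range fun i => X i ^ p - ∑ j, C (N i j) * X j) ≤
          RingHom.ker (aeval (R := B) (fun i => c i + δ i)) := by
        rw [Ideal.span_le]
        rintro _ ⟨i, rfl⟩
        show aeval (R := B) (fun i => c i + δ i) _ = 0
        rw [map_sub, map_pow, map_sum, aeval_X, h4 i, sub_eq_zero]
        apply Finset.sum_congr rfl
        intro j _
        rw [map_mul, aeval_C, aeval_X, Algebra.smul_def]
      exact h6 ha
    refine ⟨Ideal.Quotient.liftₐ _ (aeval (R := B) fun i => c i + δ i) h5, ?_⟩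
    apply Ideal.Quotient.algHom_ext
    apply MvPolynomial.algHom_ext
    intro j
    show Ideal.Quotient.mk I (aeval (R := B) (fun i => c i + δ i) (X j)) = f (x p N j)
    rw [aeval_X, map_add, hc, Ideal.Quotient.eq_zero_iff_mem.2 (h2 j), add_zero]

end

theorem frob : S_FROB := by
  intro p _ B _ _ n N hN
  have hp : p.Prime := Fact.out
  refine ⟨?_, frob_finite N hp.two_le⟩
  have h1 := frob_etale N hN
  have h2 : Algebra.FinitePresentation B (Frob p N) :=
    Algebra.FinitePresentation.quotient (Submodule.fg_span (Set.finite_range _))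
  exact ⟨h1, h2⟩

end Pool.Agent.P8H44.FR
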